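import Pool.Agent.Helper31.BQ.Stmts

/-! Row AL. -/

set_option autoImplicit false

namespace Pool.Agent.Helper45.BQ

open Filter Topology Pool.Agent.Helper31.BQ

universe u

/-- an affine map on a set containing the image of the unit ball gives a bounded operator -/
theorem ext_lin {V E E' : Type*} [AddCommGroup V] [Module ℝ V] [NormedAddCommGroup E]
    [NormedSpace ℝ E] [NormedAddCommGroup E'] [NormedSpace ℝ E'] (X : Set V) (a : X → E')
    (ha : IsAffineOn X a) (B : ℝ) (hB : ∀ p, ‖a p‖ ≤ B) (L : E →ₗ[ℝ] V)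
    (hL : ∀ x, ‖x‖ ≤ 1 → L x ∈ X) (h0 : (0 : V) ∈ X) :
    ∃ T : E →L[ℝ] E', ∀ x (hx : ‖x‖ ≤ 1), T x = a ⟨L x, hL x hx⟩ - a ⟨0, h0⟩ := by
  classical
  have hB0 : 0 ≤ B := (norm_nonneg _).trans (hB ⟨0, h0⟩)
  let H : E → E' := fun x => if h : ‖x‖ ≤ 1 then a ⟨L x, hL x h⟩ - a ⟨0, h0⟩ else 0
  have hH : ∀ x (hx : ‖x‖ ≤ 1), H x = a ⟨L x, hL x hx⟩ - a ⟨0, h0⟩ := fun x hx => dif_pos hx
  have nsm : ∀ (x : E) (t : ℝ), ‖x‖ ≤ 1 → 0 ≤ t → t ≤ 1 → ‖t • x‖ ≤ 1 := by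
    intro x t hx ht0 ht1
    rw [norm_smul, Real.norm_of_nonneg ht0]
    nlinarith [norm_nonneg x]
  have hH1 : ∀ (x : E) (t : ℝ), ‖x‖ ≤ 1 → 0 ≤ t → t ≤ 1 → H (t • x) = t • H x := by
    intro x t hx ht0 ht1
    rw [hH x hx, hH (t • x) (nsm x t hx ht0 ht1)]
    have h := ha ⟨L x, hL x hx⟩ ⟨0, h0⟩ ⟨L (t • x), hL _ (nsm x t hx ht0 ht1)⟩ t ht0 ht1 (by
      show L (t • x) = t • L x + (1 - t) • (0 : V)
      rw [map_smul, smul_zero, add_zero])
    rw [h, smul_sub, sub_smul, one_smul]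
    abel
  have nmid : ∀ x y : E, ‖x‖ ≤ 1 → ‖y‖ ≤ 1 → ‖(1 / 2 : ℝ) • (x + y)‖ ≤ 1 := by
    intro x y hx hy
    rw [norm_smul, Real.norm_of_nonneg (by norm_num)]
    have := norm_add_le x y
    linarith
  have hH2 : ∀ x y : E, ‖x‖ ≤ 1 → ‖y‖ ≤ 1 →
      H ((1 / 2 : ℝ) • (x + y)) = (1 / 2 : ℝ) • (H x + H y) := by
    intro x y hx hy
    rw [hH x hx, hH y hy, hH _ (nmid x y hx hy)]
    have h := ha ⟨L x, hL x hx⟩ ⟨L y, hL y hy⟩ ⟨L ((1 / 2 : ℝ) • (x + y)), hL _ (nmid x y hx hy)⟩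
      (1 / 2) (by norm_num) (by norm_num) (by
      show L ((1 / 2 : ℝ) • (x + y)) = (1 / 2 : ℝ) • L x + (1 - 1 / 2 : ℝ) • L y
      rw [map_smul, map_add, smul_add]
      norm_num)
    rw [h]
    have e : a ⟨0, h0⟩ = (1 / 2 : ℝ) • a ⟨0, h0⟩ + (1 / 2 : ℝ) • a ⟨0, h0⟩ := by
      rw [← add_smul]
      norm_num
    rw [show (1 - 1 / 2 : ℝ) = 1 / 2 by norm_num, smul_add, smul_sub, smul_sub]
    nth_rewrite 1 [e]
    abel
  have hH3 : ∀ x : E, ‖x‖ ≤ 1 → ‖H x‖ ≤ 2 * B := by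
    intro x hx
    rw [hH x hx]
    have h1 := norm_sub_le (a ⟨L x, hL x hx⟩) (a ⟨0, h0⟩)
    have h2 := hB ⟨L x, hL x hx⟩
    have h3 := hB ⟨0, h0⟩
    linarith
  have nr1 : ∀ (x : E) (r : ℝ), 0 < r → ‖x‖ ≤ r → ‖r⁻¹ • x‖ ≤ 1 := by
    intro x r hr hx
    rw [norm_smul, norm_inv, Real.norm_of_nonneg hr.le, inv_mul_le_iff₀ hr, mul_one]
    exact hx
  -- independence of the radius
  have hind0 : ∀ (x : E) (r s : ℝ), 0 < s → s ≤ r → ‖x‖ ≤ s →
      r • H (r⁻¹ • x) = s • H (s⁻¹ • x) := by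
    intro x r s hs hsr hx
    have hr : 0 < r := lt_of_lt_of_le hs hsr
    have e1 : r⁻¹ • x = (s / r) • (s⁻¹ • x) := by
      rw [smul_smul]
      congr 1
      field_simp
    rw [e1, hH1 _ _ (nr1 x s hs hx) (by positivity) ((div_le_one hr).2 hsr), smul_smul]
    congr 1
    field_simp
  have hind : ∀ (x : E) (r s : ℝ), 0 < s → 0 < r → ‖x‖ ≤ s → ‖x‖ ≤ r →
      r • H (r⁻¹ • x) = s • H (s⁻¹ • x) := by
    intro x r s hs hr hxs hxr
    rcases le_total s r with h | h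
    · exact hind0 x r s hs h hxs
    · exact (hind0 x s r hr h hxr).symm
  let T0 : E → E' := fun x => (1 + ‖x‖) • H ((1 + ‖x‖)⁻¹ • x)
  have hT0 : ∀ (x : E) (r : ℝ), 0 < r → ‖x‖ ≤ r → T0 x = r • H (r⁻¹ • x) := by
    intro x r hr hx
    exact hind x _ _ hr (by positivity) hx (by linarith)
  have hadd : ∀ x y, T0 (x + y) = T0 x + T0 y := by
    intro x y
    have hr : 0 < 1 + ‖x‖ + ‖y‖ := by positivity
    have nx : ‖x‖ ≤ 1 + ‖x‖ + ‖y‖ := by linarith [norm_nonneg y]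
    have ny : ‖y‖ ≤ 1 + ‖x‖ + ‖y‖ := by linarith [norm_nonneg x]
    have nxy : ‖x + y‖ ≤ 2 * (1 + ‖x‖ + ‖y‖) := by
      have := norm_add_le x y
      linarith [norm_nonneg x, norm_nonneg y]
    rw [hT0 x _ hr nx, hT0 y _ hr ny, hT0 (x + y) _ (by positivity : 0 < 2 * (1 + ‖x‖ + ‖y‖)) nxy]
    generalize 1 + ‖x‖ + ‖y‖ = r at *
    have e1 : (2 * r)⁻¹ • (x + y) = (1 / 2 : ℝ) • (r⁻¹ • x + r⁻¹ • y) := by
      rw [← smul_add, smul_smul]
      congr 1
      field_simp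
    rw [e1, hH2 _ _ (nr1 x r hr nx) (nr1 y r hr ny), smul_smul, ← smul_add]
    congr 1
    ring
  let TA : E →+ E' := AddMonoidHom.mk' T0 hadd
  have hbd : ∀ x, ‖TA x‖ ≤ 2 * B * ‖x‖ := by
    intro x
    rcases eq_or_ne x 0 with h | h
    · rw [h, map_zero, norm_zero, norm_zero, mul_zero]
    · have hx : 0 < ‖x‖ := norm_pos_iff.2 h
      show ‖T0 x‖ ≤ _
      rw [hT0 x ‖x‖ hx le_rfl, norm_smul, Real.norm_of_nonneg hx.le, mul_comm]
      exact mul_le_mul_of_nonneg_right (hH3 _ (nr1 x _ hx le_rfl)) hx.le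
  have hcont : Continuous TA := AddMonoidHomClass.continuous_of_bound TA (2 * B) hbd
  refine ⟨AddMonoidHom.toRealLinearMap TA hcont, fun x hx => ?_⟩
  show T0 x = _
  rw [hT0 x 1 one_pos hx, inv_one, one_smul, one_smul, hH x hx]

theorem st_AL : ST_AL.{u} := by
  intro E _ _ M hM hP hK a ha haff
  obtain ⟨hcl, hfd, -, -⟩ := hP
  haveI : CompactSpace (XX hM) := isCompact_iff_compactSpace.1 hK
  have h0 : (0 : ∀ n, E ⧸ M n) ∈ XX hM := by
    refine ⟨fun n => by simp, fun N => by simp⟩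
  obtain ⟨B, hB⟩ : ∃ B, ∀ p, ‖a p‖ ≤ B := by
    obtain ⟨B, hB⟩ := (isCompact_range ha).isBounded.exists_norm_le
    exact ⟨B, fun p => hB _ ⟨p, rfl⟩⟩
  -- constants
  let L : E →ₗ[ℝ] (∀ n, E ⧸ M n) := LinearMap.pi (fun n => (M n).mkQ)
  have nq : ∀ (n : ℕ) (x : E), ‖(M n).mkQ x‖ ≤ ‖x‖ := fun n x => Submodule.Quotient.norm_mk_le _ _
  have hrs : ∀ (n : ℕ) (x : E), rs hM n ((M (n + 1)).mkQ x) = (M n).mkQ x := fun n x => rfl
  have hL : ∀ x, ‖x‖ ≤ 1 → L x ∈ XX hM := by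
    intro x hx
    refine ⟨fun n => (nq n x).trans hx, fun N => ?_⟩
    have : ∀ n, ‖rs hM n (L x (n + 1)) - L x n‖ = 0 := by
      intro n
      show ‖rs hM n ((M (n + 1)).mkQ x) - (M n).mkQ x‖ = 0
      rw [hrs, sub_self, norm_zero]
    simp only [this, Finset.sum_const_zero]
    norm_num
  -- truncations
  let Lm : ℕ → E →ₗ[ℝ] (∀ n, E ⧸ M n) := fun m =>
    LinearMap.pi (fun n => if n ≤ m then (M n).mkQ else 0)
  have hLm1 : ∀ m n x, n ≤ m → Lm m x n = (M n).mkQ x := by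
    intro m n x h
    show (if n ≤ m then (M n).mkQ else 0 : E →ₗ[ℝ] E ⧸ M n) x = _
    rw [if_pos h]
  have hLm2 : ∀ m n x, ¬ n ≤ m → Lm m x n = 0 := by
    intro m n x h
    show (if n ≤ m then (M n).mkQ else 0 : E →ₗ[ℝ] E ⧸ M n) x = _
    rw [if_neg h]
    rfl
  have hLm : ∀ m x, ‖x‖ ≤ 1 → Lm m x ∈ XX hM := by
    intro m x hx
    refine ⟨fun n => ?_, fun N => ?_⟩
    · by_cases h : n ≤ m
      · rw [hLm1 m n x h]
        exact (nq n x).trans hx
      · rw [hLm2 m n x h, norm_zero]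
        norm_num
    · have h1 : ∀ n ∈ Finset.range N, ‖rs hM n (Lm m x (n + 1)) - Lm m x n‖ ≤
          if n = m then 1 else 0 := by
        intro n _
        rcases lt_trichotomy n m with h | h | h
        · rw [if_neg h.ne, hLm1 m (n + 1) x h, hLm1 m n x h.le, hrs, sub_self, norm_zero]
        · rw [if_pos h, hLm2 m (n + 1) x (by omega), hLm1 m n x h.le, map_zero, zero_sub, norm_neg]
          exact (nq n x).trans hx
        · rw [if_neg h.ne', hLm2 m (n + 1) x (by omega), hLm2 m n x (by omega), map_zero, sub_zero,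
            norm_zero]
      refine (Finset.sum_le_sum h1).trans ?_
      rw [Finset.sum_ite_eq']
      split_ifs <;> norm_num
  obtain ⟨T, hT⟩ := ext_lin (XX hM) a haff B hB L hL h0
  have hTm : ∀ m, ∃ T : E →L[ℝ] E, ∀ x (hx : ‖x‖ ≤ 1),
      T x = a ⟨Lm m x, hLm m x hx⟩ - a ⟨0, h0⟩ := fun m =>
    ext_lin (XX hM) a haff B hB (Lm m) (hLm m) h0
  choose Tm hTm using hTm
  have hfr : ∀ m, Tm m ∈ FR E := by
    intro m
    show FiniteDimensional ℝ (LinearMap.range (Tm m : E →ₗ[ℝ] E))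
    have hker : M m ≤ LinearMap.ker (Tm m : E →ₗ[ℝ] E) := by
      intro x hx
      rw [LinearMap.mem_ker]
      show Tm m x = 0
      have hscale : ∀ y ∈ M m, ‖y‖ ≤ 1 → Tm m y = 0 := by
        intro y hy hy1
        rw [hTm m y hy1]
        have : Lm m y = 0 := by
          funext n
          by_cases h : n ≤ m
          · rw [hLm1 m n y h]
            exact (Submodule.Quotient.mk_eq_zero (M n)).2 (hM h hy)
          · rw [hLm2 m n y h]
            rfl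
        have e : (⟨Lm m y, hLm m y hy1⟩ : XX hM) = ⟨0, h0⟩ := Subtype.ext this
        rw [e, sub_self]
      have hr : 0 < 1 + ‖x‖ := by positivity
      have h1 := hscale ((1 + ‖x‖)⁻¹ • x) ((M m).smul_mem _ hx) (by
        rw [norm_smul, norm_inv, Real.norm_of_nonneg hr.le, inv_mul_le_iff₀ hr, mul_one]
        linarith)
      rw [map_smul] at h1
      exact (smul_eq_zero.1 h1).resolve_left (inv_ne_zero hr.ne')
    have hrange : LinearMap.range ((M m).liftQ (Tm m : E →ₗ[ℝ] E) hker) =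
        LinearMap.range (Tm m : E →ₗ[ℝ] E) := Submodule.range_liftQ _ _ _
    rw [← hrange]
    haveI := hfd m
    infer_instance
  refine ⟨T, ?_, ?_⟩
  · -- convergence in norm
    have hx : ∀ m, ∃ x : E, ‖x‖ ≤ 1 ∧ ‖Tm m - T‖ ≤ 2 * ‖(Tm m - T) x‖ := by
      intro m
      rcases (norm_nonneg (Tm m - T)).eq_or_lt with h | h
      · exact ⟨0, by simp, by rw [← h]; positivity⟩
      · obtain ⟨x, hx1, hx2⟩ := (Tm m - T).exists_lt_apply_of_lt_opNorm (half_lt_self h)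
        exact ⟨x, hx1.le, by linarith⟩
    choose x hx1 hx2 using hx
    have hdiff : ∀ m, (Tm m - T) (x m) = a ⟨Lm m (x m), hLm m _ (hx1 m)⟩ - a ⟨L (x m), hL _ (hx1 m)⟩ := by
      intro m
      rw [ContinuousLinearMap.sub_apply, hTm m _ (hx1 m), hT _ (hx1 m)]
      abel
    have huc : UniformContinuous a := CompactSpace.uniformContinuous_of_continuous ha
    have hpair : Tendsto (fun m => ((⟨Lm m (x m), hLm m _ (hx1 m)⟩ : XX hM),
        (⟨L (x m), hL _ (hx1 m)⟩ : XX hM))) atTop (uniformity (XX hM)) := by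
      rw [uniformity_subtype, tendsto_comap_iff, Pi.uniformity, tendsto_iInf]
      intro n
      rw [tendsto_comap_iff]
      have h1 : ∀ᶠ m in atTop, ((Lm m (x m)) n, (L (x m)) n) ∈
          (SetRel.id : Set ((E ⧸ M n) × (E ⧸ M n))) := by
        filter_upwards [eventually_ge_atTop n] with m hm
        rw [hLm1 m n _ hm]
        rfl
      exact (tendsto_principal.2 h1).mono_right refl_le_uniformity
    have h2 := Tendsto.comp huc hpair
    have h3 : Tendsto (fun m => dist (a ⟨Lm m (x m), hLm m _ (hx1 m)⟩)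
        (a ⟨L (x m), hL _ (hx1 m)⟩)) atTop (𝓝 0) := by
      rw [Metric.tendsto_atTop]
      intro ε hε
      have h4 := h2.eventually (Metric.dist_mem_uniformity hε)
      obtain ⟨N, hN⟩ := eventually_atTop.1 h4
      refine ⟨N, fun m hm => ?_⟩
      rw [Real.dist_0_eq_abs, abs_of_nonneg dist_nonneg]
      exact hN m hm
    have h4 : Tendsto Tm atTop (𝓝 T) := by
      rw [tendsto_iff_norm_sub_tendsto_zero]
      refine squeeze_zero (fun m => norm_nonneg _) (fun m => (hx2 m).trans_eq ?_)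
        (by simpa using h3.const_mul 2)
      rw [hdiff m, dist_eq_norm]
    exact mem_closure_of_tendsto h4 (Eventually.of_forall hfr)
  · intro x hx φ ψ hφ hψ
    rw [hT x hx]
    have e1 : (⟨L x, hL x hx⟩ : XX hM) = φ := Subtype.ext hφ.symm
    have e2 : (⟨0, h0⟩ : XX hM) = ψ := Subtype.ext hψ.symm
    rw [e1, e2]

end Pool.Agent.Helper45.BQ
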